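import Mathlib

set_option autoImplicit false

namespace Pool.Agent.Results.MP_e89dd6_co.NotUnimodal

open Set

section Defs

variable {P : Type} [Fintype P] [PartialOrder P]

/-- A labeling of the finite poset `P` with `n = Fintype.card P` elements:
a bijection from `P` onto `{1, ..., n}`. -/
def IsLabeling (L : P → ℕ) : Prop :=
  Set.BijOn L Set.univ (Set.Icc 1 (Fintype.card P))

/-- A linear extension: a labeling `L` such that `x ≤ y` implies `L x ≤ L y`. -/
def IsLinExt (L : P → ℕ) : Prop :=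
  IsLabeling L ∧ ∀ x y : P, x ≤ y → L x ≤ L y

/-- `y` is the `L`-successor of `x`: the element with smallest label among all `y` with `x < y`. -/
def IsSucc (L : P → ℕ) (x y : P) : Prop :=
  x < y ∧ ∀ z : P, x < z → L y ≤ L z

/-- The elements `v_1, ..., v_m` of the promotion path of `L`: `v_1` is the element with label `1`,
and `v_{i+1}` is the `L`-successor of `v_i` as long as `v_i` is not maximal. -/
inductive OnPath (L : P → ℕ) : P → Prop
  | first (x : P) (hx : L x = 1) : OnPath L x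
  | next (x y : P) (hx : OnPath L x) (hy : IsSucc L x y) : OnPath L y

open Classical in
/-- Extended promotion: `L x - 1` off the path; at a path element `v_i` that is not maximal the new
label is `L v_{i+1} - 1`, where `L v_{i+1}` is the smallest label of an element above `v_i`;
at the last (maximal) path element the new label is `n`. -/
noncomputable def promote (L : P → ℕ) (x : P) : ℕ :=
  if OnPath L x then
    (if ∃ y, x < y then sInf {l | ∃ y, x < y ∧ L y = l} - 1 else Fintype.card P)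
  else L x - 1

variable (P)

/-- `a_k(P)`: the number of labelings `L` such that the `k`-th iterate of extended promotion
sends `L` to a linear extension. -/
noncomputable def a (k : ℕ) : ℕ :=
  Set.ncard {L : P → ℕ | IsLabeling L ∧ IsLinExt (promote^[k] L)}

/-- The sorting profile: `ahat 0 = a 0` and `ahat k = a k - a (k - 1)` for `k ≥ 1`,
as an integer. -/
noncomputable def ahat : ℕ → ℤ
  | 0 => a P 0
  | k + 1 => (a P (k + 1) : ℤ) - a P k

end Defs

/-! ### The five element poset: two disjoint two-element chains and an isolated point -/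

/-- Disjoint union of two chains of size two and one point, with Mathlib's order on sums. -/
abbrev P5 : Type := (Fin 2 ⊕ Fin 2) ⊕ Fin 1

lemma card_P5 : Fintype.card P5 = 5 := by decide

/-- tuples of labels -/
abbrev T5 : Type := ℕ × ℕ × ℕ × ℕ × ℕ

/-- the label function of a tuple -/
def mk (t : T5) : P5 → ℕ
  | Sum.inl (Sum.inl 0) => t.1
  | Sum.inl (Sum.inl 1) => t.2.1
  | Sum.inl (Sum.inr 0) => t.2.2.1
  | Sum.inl (Sum.inr 1) => t.2.2.2.1
  | Sum.inr 0 => t.2.2.2.2

/-- the tuple of a label function -/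
def un (L : P5 → ℕ) : T5 :=
  (L (Sum.inl (Sum.inl 0)), L (Sum.inl (Sum.inl 1)), L (Sum.inl (Sum.inr 0)),
    L (Sum.inl (Sum.inr 1)), L (Sum.inr 0))

lemma mk_un (L : P5 → ℕ) : mk (un L) = L := by
  funext x
  rcases x with (x | x) | x <;> fin_cases x <;> rfl

lemma un_mk (t : T5) : un (mk t) = t := rfl

lemma mk_injective : Function.Injective mk := fun s t h => by
  rw [← un_mk s, ← un_mk t, h]

/-- promotion on tuples -/
def pc (t : T5) : T5 :=
  (if t.1 = 1 then t.2.1 - 1 else t.1 - 1,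
   if t.2.1 = 1 ∨ t.1 = 1 then 5 else t.2.1 - 1,
   if t.2.2.1 = 1 then t.2.2.2.1 - 1 else t.2.2.1 - 1,
   if t.2.2.2.1 = 1 ∨ t.2.2.1 = 1 then 5 else t.2.2.2.1 - 1,
   if t.2.2.2.2 = 1 then 5 else t.2.2.2.2 - 1)

/-- labelings on tuples -/
def lc (t : T5) : Prop :=
  (1 ≤ t.1 ∧ t.1 ≤ 5) ∧ (1 ≤ t.2.1 ∧ t.2.1 ≤ 5) ∧ (1 ≤ t.2.2.1 ∧ t.2.2.1 ≤ 5) ∧
  (1 ≤ t.2.2.2.1 ∧ t.2.2.2.1 ≤ 5) ∧ (1 ≤ t.2.2.2.2 ∧ t.2.2.2.2 ≤ 5) ∧
  t.1 ≠ t.2.1 ∧ t.1 ≠ t.2.2.1 ∧ t.1 ≠ t.2.2.2.1 ∧ t.1 ≠ t.2.2.2.2 ∧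
  t.2.1 ≠ t.2.2.1 ∧ t.2.1 ≠ t.2.2.2.1 ∧ t.2.1 ≠ t.2.2.2.2 ∧
  t.2.2.1 ≠ t.2.2.2.1 ∧ t.2.2.1 ≠ t.2.2.2.2 ∧ t.2.2.2.1 ≠ t.2.2.2.2

instance : DecidablePred lc := fun t => by unfold lc; infer_instance

/-- linear extensions on tuples -/
def ec (t : T5) : Prop := lc t ∧ t.1 ≤ t.2.1 ∧ t.2.2.1 ≤ t.2.2.2.1

instance : DecidablePred ec := fun t => by unfold ec; infer_instance

lemma isLabeling_mk (t : T5) : IsLabeling (mk t) ↔ lc t := by
  unfold IsLabeling
  rw [card_P5]
  constructor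
  · rintro ⟨h1, h2, -⟩
    have m : ∀ x, mk t x ∈ Set.Icc 1 5 := fun x => h1 (Set.mem_univ x)
    have inj : ∀ x y : P5, x ≠ y → mk t x ≠ mk t y := fun x y hxy h =>
      hxy (h2 (Set.mem_univ x) (Set.mem_univ y) h)
    refine ⟨m (Sum.inl (Sum.inl 0)), m (Sum.inl (Sum.inl 1)), m (Sum.inl (Sum.inr 0)),
      m (Sum.inl (Sum.inr 1)), m (Sum.inr 0), ?_, ?_, ?_, ?_, ?_, ?_, ?_, ?_, ?_, ?_⟩
    · exact inj (Sum.inl (Sum.inl 0)) (Sum.inl (Sum.inl 1)) (by decide)
    · exact inj (Sum.inl (Sum.inl 0)) (Sum.inl (Sum.inr 0)) (by decide)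
    · exact inj (Sum.inl (Sum.inl 0)) (Sum.inl (Sum.inr 1)) (by decide)
    · exact inj (Sum.inl (Sum.inl 0)) (Sum.inr 0) (by decide)
    · exact inj (Sum.inl (Sum.inl 1)) (Sum.inl (Sum.inr 0)) (by decide)
    · exact inj (Sum.inl (Sum.inl 1)) (Sum.inl (Sum.inr 1)) (by decide)
    · exact inj (Sum.inl (Sum.inl 1)) (Sum.inr 0) (by decide)
    · exact inj (Sum.inl (Sum.inr 0)) (Sum.inl (Sum.inr 1)) (by decide)
    · exact inj (Sum.inl (Sum.inr 0)) (Sum.inr 0) (by decide)
    · exact inj (Sum.inl (Sum.inr 1)) (Sum.inr 0) (by decide)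
  · intro h
    have hm : Set.MapsTo (mk t) Set.univ (Set.Icc 1 5) := by
      obtain ⟨h1, h2, h3, h4, h5, -⟩ := h
      intro x _
      rcases x with (x | x) | x <;> fin_cases x
      · exact h1
      · exact h2
      · exact h3
      · exact h4
      · exact h5
    have hi : Function.Injective (mk t) := by
      obtain ⟨-, -, -, -, -, h⟩ := h
      intro x y hxy
      rcases x with (x | x) | x <;> rcases y with (y | y) | y <;> fin_cases x <;> fin_cases y <;>
        simp [mk] at hxy ⊢ <;> omega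
    refine ⟨hm, hi.injOn, ?_⟩
    -- surjectivity by counting
    have : Finset.image (mk t) Finset.univ = Finset.Icc 1 5 := by
      apply Finset.eq_of_subset_of_card_le
      · intro y hy
        rw [Finset.mem_image] at hy
        obtain ⟨x, -, rfl⟩ := hy
        rw [Finset.mem_Icc]
        exact hm (Set.mem_univ x)
      · rw [Finset.card_image_of_injective _ hi, Finset.card_univ, card_P5]
        simp
    intro y hy
    have hy' : y ∈ Finset.image (mk t) Finset.univ := by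
      rw [this, Finset.mem_Icc]; exact hy
    rw [Finset.mem_image] at hy'
    obtain ⟨x, -, rfl⟩ := hy'
    exact ⟨x, Set.mem_univ x, rfl⟩

lemma lt_iff (x y : P5) : x < y ↔
    (x = Sum.inl (Sum.inl 0) ∧ y = Sum.inl (Sum.inl 1)) ∨
    (x = Sum.inl (Sum.inr 0) ∧ y = Sum.inl (Sum.inr 1)) := by
  rcases x with (x | x) | x <;> rcases y with (y | y) | y <;> fin_cases x <;> fin_cases y <;>
    simp

instance decLt (x y : P5) : Decidable (x < y) := decidable_of_iff _ (lt_iff x y).symm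

instance decLe (x y : P5) : Decidable (x ≤ y) := decidable_of_iff _ le_iff_lt_or_eq.symm

lemma isLinExt_mk (t : T5) : IsLinExt (mk t) ↔ ec t := by
  unfold IsLinExt ec
  rw [isLabeling_mk]
  refine and_congr_right fun _ => ⟨fun h => ⟨?_, ?_⟩, ?_⟩
  · exact h (Sum.inl (Sum.inl 0)) (Sum.inl (Sum.inl 1)) (by decide)
  · exact h (Sum.inl (Sum.inr 0)) (Sum.inl (Sum.inr 1)) (by decide)
  · rintro ⟨h1, h2⟩ x y hxy
    revert hxy
    rcases x with (x | x) | x <;> rcases y with (y | y) | y <;> fin_cases x <;> fin_cases y <;>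
      simp [mk, h1, h2]

lemma onPath_iff (L : P5 → ℕ) (x : P5) : OnPath L x ↔
    L x = 1 ∨ ∃ w, w < x ∧ L w = 1 := by
  constructor
  · intro h
    cases h with
    | first _ hx => exact Or.inl hx
    | next w _ hw hs =>
      refine Or.inr ⟨w, hs.1, ?_⟩
      cases hw with
      | first _ hw => exact hw
      | next v _ hv hs' =>
        exfalso
        have h1 := (lt_iff _ _).1 hs.1
        have h2 := (lt_iff _ _).1 hs'.1
        rcases h1 with ⟨h1, -⟩ | ⟨h1, -⟩ <;> rcases h2 with ⟨-, h2⟩ | ⟨-, h2⟩ <;>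
          rw [h1] at h2 <;> revert h2 <;> decide
  · rintro (h | ⟨w, hw, h⟩)
    · exact OnPath.first _ h
    · refine OnPath.next w x (OnPath.first _ h) ⟨hw, fun z hz => ?_⟩
      have h1 := (lt_iff _ _).1 hw
      have h2 := (lt_iff _ _).1 hz
      rcases h1 with ⟨h1, h1'⟩ | ⟨h1, h1'⟩ <;> rcases h2 with ⟨h2, h2'⟩ | ⟨h2, h2'⟩
      · rw [h1', h2']
      · exfalso; rw [h1] at h2; revert h2; decide
      · exfalso; rw [h1] at h2; revert h2; decide
      · rw [h1', h2']

lemma promote_mk (t : T5) : promote (mk t) = mk (pc t) := by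
  have key : ∀ (L : P5 → ℕ) (x y : P5), x < y → sInf {l | ∃ y, x < y ∧ L y = l} = L y := by
    intro L x y hxy
    have : {l | ∃ y, x < y ∧ L y = l} = {L y} := by
      ext l
      simp only [Set.mem_ofPred_eq, Set.mem_singleton_iff]
      constructor
      · rintro ⟨z, hz, rfl⟩
        have h1 := (lt_iff _ _).1 hxy
        have h2 := (lt_iff _ _).1 hz
        rcases h1 with ⟨h1, h1'⟩ | ⟨h1, h1'⟩ <;> rcases h2 with ⟨h2, h2'⟩ | ⟨h2, h2'⟩
        · rw [h1', h2']
        · exfalso; rw [h1] at h2; revert h2; decide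
        · exfalso; rw [h1] at h2; revert h2; decide
        · rw [h1', h2']
      · rintro rfl
        exact ⟨y, hxy, rfl⟩
    rw [this]
    exact csInf_singleton _
  have nmax : ∀ x y : P5, x < y → ∃ y, x < y := fun x y h => ⟨y, h⟩
  funext x
  unfold promote
  rw [card_P5]
  rcases x with (x | x) | x <;> fin_cases x
  · have h1 : (Sum.inl (Sum.inl 0) : P5) < Sum.inl (Sum.inl 1) := by decide
    have h2 : OnPath (mk t) (Sum.inl (Sum.inl 0)) ↔ t.1 = 1 := by
      rw [onPath_iff]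
      have : ¬ ∃ w : P5, w < Sum.inl (Sum.inl 0) ∧ mk t w = 1 := by
        rintro ⟨w, hw, -⟩
        revert w; decide
      simp only [this, or_false]
      rfl
    simp only [Fin.zero_eta, Fin.isValue, h2, nmax _ _ h1, if_true, key _ _ _ h1]
    rfl
  · have h1 : ¬ ∃ y, (Sum.inl (Sum.inl 1) : P5) < y := by decide
    have h2 : OnPath (mk t) (Sum.inl (Sum.inl 1)) ↔ t.2.1 = 1 ∨ t.1 = 1 := by
      rw [onPath_iff]
      have : (∃ w : P5, w < Sum.inl (Sum.inl 1) ∧ mk t w = 1) ↔ t.1 = 1 := by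
        constructor
        · rintro ⟨w, hw, h⟩
          rcases (lt_iff _ _).1 hw with ⟨h1, -⟩ | ⟨-, h1⟩
          · rw [h1] at h; exact h
          · exfalso; revert h1; decide
        · intro h
          exact ⟨Sum.inl (Sum.inl 0), by decide, h⟩
      rw [this]
      rfl
    simp only [Fin.mk_one, Fin.isValue, h2, h1, if_false]
    rfl
  · have h1 : (Sum.inl (Sum.inr 0) : P5) < Sum.inl (Sum.inr 1) := by decide
    have h2 : OnPath (mk t) (Sum.inl (Sum.inr 0)) ↔ t.2.2.1 = 1 := by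
      rw [onPath_iff]
      have : ¬ ∃ w : P5, w < Sum.inl (Sum.inr 0) ∧ mk t w = 1 := by
        rintro ⟨w, hw, -⟩
        revert w; decide
      simp only [this, or_false]
      rfl
    simp only [Fin.zero_eta, Fin.isValue, h2, nmax _ _ h1, if_true, key _ _ _ h1]
    rfl
  · have h1 : ¬ ∃ y, (Sum.inl (Sum.inr 1) : P5) < y := by decide
    have h2 : OnPath (mk t) (Sum.inl (Sum.inr 1)) ↔ t.2.2.2.1 = 1 ∨ t.2.2.1 = 1 := by
      rw [onPath_iff]
      have : (∃ w : P5, w < Sum.inl (Sum.inr 1) ∧ mk t w = 1) ↔ t.2.2.1 = 1 := by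
        constructor
        · rintro ⟨w, hw, h⟩
          rcases (lt_iff _ _).1 hw with ⟨-, h1⟩ | ⟨h1, -⟩
          · exfalso; revert h1; decide
          · rw [h1] at h; exact h
        · intro h
          exact ⟨Sum.inl (Sum.inr 0), by decide, h⟩
      rw [this]
      rfl
    simp only [Fin.mk_one, Fin.isValue, h2, h1, if_false]
    rfl
  · have h1 : ¬ ∃ y, (Sum.inr 0 : P5) < y := by decide
    have h2 : OnPath (mk t) (Sum.inr 0) ↔ t.2.2.2.2 = 1 := by
      rw [onPath_iff]
      have : ¬ ∃ w : P5, w < Sum.inr 0 ∧ mk t w = 1 := by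
        rintro ⟨w, hw, -⟩
        revert w; decide
      simp only [this, or_false]
      rfl
    simp only [Fin.zero_eta, Fin.isValue, h2, h1, if_false]
    rfl

lemma iterate_mk (k : ℕ) (t : T5) : promote^[k] (mk t) = mk (pc^[k] t) := by
  induction k generalizing t with
  | zero => rfl
  | succ k ih => rw [Function.iterate_succ_apply, promote_mk, ih, Function.iterate_succ_apply]

/-- all tuples with entries in `{1,...,5}` -/
def box : Finset T5 :=
  Finset.Icc 1 5 ×ˢ Finset.Icc 1 5 ×ˢ Finset.Icc 1 5 ×ˢ Finset.Icc 1 5 ×ˢ Finset.Icc 1 5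

lemma a_eq (k : ℕ) : a P5 k = (box.filter (fun t => lc t ∧ ec (pc^[k] t))).card := by
  unfold a
  rw [← Set.ncard_coe_finset, ← Set.ncard_image_of_injective _ mk_injective]
  congr 1
  ext L
  simp only [Set.mem_ofPred_eq, Finset.coe_filter, Set.mem_image]
  constructor
  · rintro ⟨h1, h2⟩
    refine ⟨un L, ?_, mk_un L⟩
    rw [← mk_un L] at h1 h2
    rw [isLabeling_mk] at h1
    rw [iterate_mk, isLinExt_mk] at h2
    refine ⟨?_, h1, h2⟩
    unfold box
    simp only [Finset.mem_product, Finset.mem_Icc]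
    obtain ⟨g1, g2, g3, g4, g5, -⟩ := h1
    exact ⟨g1, g2, g3, g4, g5⟩
  · rintro ⟨t, ⟨-, h1, h2⟩, rfl⟩
    rw [isLabeling_mk, iterate_mk, isLinExt_mk]
    exact ⟨h1, h2⟩

lemma a0 : a P5 0 = 30 := by
  rw [a_eq]; decide +kernel

lemma a1 : a P5 1 = 54 := by
  rw [a_eq]; decide +kernel

lemma a2 : a P5 2 = 84 := by
  rw [a_eq]; decide +kernel

/-- Q1 of MP_e89dd6_co is answered in the negative: there are a finite poset `P` and indices
`0 ≤ i < j < l ≤ n - 1` with `ahat i > ahat j < ahat l`. -/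
theorem result : ∃ (P : Type) (_ : Fintype P) (_ : PartialOrder P) (i j l : ℕ),
    i < j ∧ j < l ∧ l ≤ Fintype.card P - 1 ∧ ahat P i > ahat P j ∧ ahat P j < ahat P l := by
  refine ⟨P5, inferInstance, inferInstance, 0, 1, 2, by norm_num, by norm_num, ?_, ?_, ?_⟩
  · rw [card_P5]; norm_num
  · change ((a P5 0 : ℕ) : ℤ) > (a P5 1 : ℤ) - a P5 0
    rw [a0, a1]; norm_num
  · change (a P5 1 : ℤ) - a P5 0 < (a P5 2 : ℤ) - a P5 1
    rw [a0, a1, a2]; norm_num

end Pool.Agent.Results.MP_e89dd6_co.NotUnimodal
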